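import Mathlib
import Pool.Agent.W450.EMPoly
import Pool.Agent.W450.EMEvol

/-!
# A nontrivial evolution of a reduced local ring in characteristic zero

Mazur asked whether every reduced local algebra essentially of finite type over a field of
characteristic zero is evolutionary stable.  The answer is no, already over `ℂ`.
-/

set_option autoImplicit false

namespace Pool.Agent.Results.MP_36a065_ag.NontrivialEvolution

open MvPolynomial Pool.Agent.W450.EM

/-- the local ring of affine 30-space at the origin -/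
abbrev S : Type := Localization.AtPrime (orig ℂ (Fin 30))

/-- the ideal of the curve in the local ring -/
noncomputable abbrev I : Ideal S := (I0 phi).map (algebraMap (MvPolynomial (Fin 30) ℂ) S)

theorem I0_le : I0 phi ≤ orig ℂ (Fin 30) :=
  (iInf_le _ (1 : AddChar (ZMod 601) ℂ)).trans (ker_le_orig (phi 1) (phi_eval 1))

theorem I_ne : I ≠ ⊤ := by
  intro htop
  have h1 : I ≤ IsLocalRing.maximalIdeal S := by
    rw [← Localization.AtPrime.map_eq_maximalIdeal]
    exact Ideal.map_mono I0_le
  rw [htop] at h1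
  exact (IsLocalRing.maximalIdeal.isMaximal S).ne_top (top_le_iff.mp h1)

theorem I_rad : I.IsRadical := by
  intro x hx
  have h1 := IsLocalization.map_radical (orig ℂ (Fin 30)).primeCompl S (I0 phi)
  rw [(I0_isRadical phi).radical] at h1
  rw [I, h1]
  exact hx

theorem F_mem : algebraMap (MvPolynomial (Fin 30) ℂ) S F ∈ I :=
  Ideal.mem_map_of_mem _ (mem_I0.mpr phi_F)

theorem dF_mem (i : Fin 30) : algebraMap (MvPolynomial (Fin 30) ℂ) S (pderiv i F) ∈ I :=
  Ideal.mem_map_of_mem _ (mem_I0.mpr fun ψ => phi_pderiv_F ψ i)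

theorem F_not_mem : algebraMap (MvPolynomial (Fin 30) ℂ) S F ∉ IsLocalRing.maximalIdeal S * I := by
  intro h
  rw [← Localization.AtPrime.map_eq_maximalIdeal, ← Ideal.map_mul,
    IsLocalization.algebraMap_mem_map_algebraMap_iff (orig ℂ (Fin 30)).primeCompl] at h
  obtain ⟨m, hm, hm2⟩ := h
  have h1 : kap (m * F) = constantCoeff m * kap F :=
    functional_mul phi kap kap_X_mul m F (mem_I0.mpr phi_F)
  have h2 : kap (m * F) = 0 := by
    refine Submodule.mul_induction_on hm2 ?_ ?_
    · intro a ha b hb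
      rw [functional_mul phi kap kap_X_mul a b hb]
      have : constantCoeff a = 0 := ha
      rw [this, zero_mul]
    · intro a b ha hb
      rw [map_add, ha, hb, add_zero]
  rw [h1] at h2
  rcases mul_eq_zero.mp h2 with h3 | h3
  · exact hm h3
  · exact kap_F h3

/-- There are a reduced local `ℂ`-algebra `R` essentially of finite type and a surjective,
non-injective homomorphism of `ℂ`-algebras `T → R` such that the natural map
`R ⊗[T] Ω[T⁄ℂ] → Ω[R⁄ℂ]` is an isomorphism.  Moreover `T` is local and essentially of finite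
type. -/
theorem result :
    ∃ (R T : Type) (_ : CommRing R) (_ : CommRing T) (_ : Algebra ℂ R) (_ : Algebra ℂ T)
      (_ : Algebra T R) (_ : IsScalarTower ℂ T R),
      IsLocalRing R ∧ IsReduced R ∧ Algebra.EssFiniteType ℂ R ∧
      IsLocalRing T ∧ Algebra.EssFiniteType ℂ T ∧
      Function.Surjective (algebraMap T R) ∧ ¬ Function.Injective (algebraMap T R) ∧
      Function.Bijective (KaehlerDifferential.mapBaseChange ℂ T R) := by
  obtain ⟨J, hJ, hFJ, hgen⟩ := exists_hyper I (algebraMap _ S F) F_mem F_not_mem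
  have hJ_ne : J ≠ ⊤ := fun h => I_ne (top_le_iff.mp (h ▸ hJ))
  let q : (S ⧸ J) →+* (S ⧸ I) := Ideal.Quotient.factor hJ
  let _ : Algebra (S ⧸ J) (S ⧸ I) :=
    @RingHom.toAlgebra (S ⧸ J) (S ⧸ I) _ (Ideal.Quotient.commSemiring I) q
  have hmap : ∀ s : S, algebraMap (S ⧸ J) (S ⧸ I) (Ideal.Quotient.mk J s) =
      Ideal.Quotient.mk I s := fun s => rfl
  have : IsScalarTower ℂ (S ⧸ J) (S ⧸ I) := IsScalarTower.of_algebraMap_eq fun c => rfl
  have : IsScalarTower (MvPolynomial (Fin 30) ℂ) (S ⧸ J) (S ⧸ I) :=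
    IsScalarTower.of_algebraMap_eq fun c => rfl
  have : Nontrivial (S ⧸ I) := Ideal.Quotient.nontrivial_iff.mpr I_ne
  have : Nontrivial (S ⧸ J) := Ideal.Quotient.nontrivial_iff.mpr hJ_ne
  have : IsLocalRing (S ⧸ I) :=
    IsLocalRing.of_surjective' (Ideal.Quotient.mk I) Ideal.Quotient.mk_surjective
  have : IsLocalRing (S ⧸ J) :=
    IsLocalRing.of_surjective' (Ideal.Quotient.mk J) Ideal.Quotient.mk_surjective
  have : IsReduced (S ⧸ I) := (Ideal.isRadical_iff_quotient_reduced I).mp I_rad
  have hsurj : Function.Surjective (algebraMap (S ⧸ J) (S ⧸ I)) := by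
    intro r
    obtain ⟨s, rfl⟩ := Ideal.Quotient.mk_surjective r
    exact ⟨Ideal.Quotient.mk J s, hmap s⟩
  refine ⟨S ⧸ I, S ⧸ J, inferInstance, inferInstance, inferInstance, inferInstance,
    inferInstance, inferInstance, inferInstance, inferInstance, inferInstance, inferInstance,
    inferInstance, hsurj, ?_, ?_⟩
  · intro hinj
    apply hFJ
    rw [← Ideal.Quotient.eq_zero_iff_mem]
    apply hinj
    rw [hmap, map_zero]
    exact Ideal.Quotient.eq_zero_iff_mem.mpr F_mem
  · refine evol hsurj F ?_ ?_ ?_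
    · exact Ideal.Quotient.eq_zero_iff_mem.mpr F_mem
    · intro i
      exact Ideal.Quotient.eq_zero_iff_mem.mpr (dF_mem i)
    · intro t ht
      obtain ⟨g, rfl⟩ := Ideal.Quotient.mk_surjective t
      rw [hmap, Ideal.Quotient.eq_zero_iff_mem] at ht
      obtain ⟨s, hs⟩ := hgen g ht
      refine ⟨Ideal.Quotient.mk J s, ?_⟩
      have h2 : algebraMap (MvPolynomial (Fin 30) ℂ) (S ⧸ J) F =
          Ideal.Quotient.mk J (algebraMap (MvPolynomial (Fin 30) ℂ) S F) := rfl
      rw [h2, ← map_mul, Ideal.Quotient.eq]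
      exact hs

end Pool.Agent.Results.MP_36a065_ag.NontrivialEvolution
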